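import Pool.Agent.H70.TM.Loops

/-!
Programs over stacks indexed by `ℕ`: transfer to finitely many stacks, exact effects of the basic
commands.
-/

namespace Pool.Agent.H1.Gen

open Turing Function Pool.Agent.H70.TM Polynomial

/-- all stacks used are below `n` -/
def Below {σ : Type} (n : ℕ) : Cmd ℕ σ → Prop
  | .push k _ => k < n
  | .pop k _ => k < n
  | .load _ => True
  | .seq a b => Below n a ∧ Below n b
  | .ite _ a b => Below n a ∧ Below n b
  | .wh _ a => Below n a

theorem Below.mono {σ : Type} {n m : ℕ} (h : n ≤ m) : ∀ (c : Cmd ℕ σ), Below n c → Below m c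
  | .push _ _, hk => lt_of_lt_of_le (show _ < n from hk) h
  | .pop _ _, hk => lt_of_lt_of_le (show _ < n from hk) h
  | .load _, _ => trivial
  | .seq a b, hk => ⟨Below.mono h a hk.1, Below.mono h b hk.2⟩
  | .ite _ a b, hk => ⟨Below.mono h a hk.1, Below.mono h b hk.2⟩
  | .wh _ a, hk => Below.mono h a hk

theorem exists_below {σ : Type} : ∀ (c : Cmd ℕ σ), ∃ n, Below n c
  | .push k _ => ⟨k + 1, Nat.lt_succ_self k⟩
  | .pop k _ => ⟨k + 1, Nat.lt_succ_self k⟩
  | .load _ => ⟨0, trivial⟩
  | .seq a b => by
    obtain ⟨n, hn⟩ := exists_below a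
    obtain ⟨m, hm⟩ := exists_below b
    exact ⟨max n m, hn.mono (le_max_left _ _), hm.mono (le_max_right _ _)⟩
  | .ite _ a b => by
    obtain ⟨n, hn⟩ := exists_below a
    obtain ⟨m, hm⟩ := exists_below b
    exact ⟨max n m, hn.mono (le_max_left _ _), hm.mono (le_max_right _ _)⟩
  | .wh _ a => by
    obtain ⟨n, hn⟩ := exists_below a
    exact ⟨n, hn⟩

/-- renaming of the stacks -/
def ren {K K' σ : Type} (f : K → K') : Cmd K σ → Cmd K' σ
  | .push k g => .push (f k) g
  | .pop k g => .pop (f k) g
  | .load g => .load g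
  | .seq a b => .seq (ren f a) (ren f b)
  | .ite p a b => .ite p (ren f a) (ren f b)
  | .wh p a => .wh p (ren f a)

/-- the stack `k` among `0, …, n` -/
def fn (n k : ℕ) : Fin (n + 1) := ⟨min k n, by omega⟩

theorem update_fn {n k : ℕ} (hk : k < n + 1) (S : ℕ → List Bool) (x : List Bool) :
    (fun i : Fin (n + 1) => update S k x i) = update (fun i : Fin (n + 1) => S i) (fn n k) x := by
  funext i
  by_cases h : (i : ℕ) = k
  · have : i = fn n k := by
      apply Fin.ext
      simp only [fn]
      omega
    rw [this, update_self]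
    have : ((fn n k : Fin (n + 1)) : ℕ) = k := by
      simp only [fn]
      omega
    rw [this, update_self]
  · rw [update_of_ne h, update_of_ne]
    intro hh
    apply h
    rw [hh]
    simp only [fn]
    omega

theorem fn_val {n k : ℕ} (hk : k < n + 1) : ((fn n k : Fin (n + 1)) : ℕ) = k := by
  simp only [fn]
  omega

theorem run_fin {σ : Type} {n : ℕ} {c : Cmd ℕ σ} {v v' : σ} {S S' : ℕ → List Bool} {m : ℕ}
    (h : Run c v S v' S' m) : Below (n + 1) c →
      Run (ren (fn n) c) v (fun i => S i) v' (fun i => S' i) m := by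
  induction h with
  | push k f v S =>
    intro hk
    rw [update_fn hk]
    have := Run.push (fn n k) f v (fun i : Fin (n + 1) => S i)
    rw [fn_val hk] at this
    exact this
  | pop k f v S =>
    intro hk
    rw [update_fn hk]
    have := Run.pop (fn n k) f v (fun i : Fin (n + 1) => S i)
    rw [fn_val hk] at this
    exact this
  | load f v S => intro _; exact .load f v _
  | seq h1 h2 ih1 ih2 => intro hk; exact .seq (ih1 hk.1) (ih2 hk.2)
  | ite_true hp h1 ih1 => intro hk; exact .ite_true hp (ih1 hk.1)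
  | ite_false hp h1 ih1 => intro hk; exact .ite_false hp (ih1 hk.2)
  | wh_false hp => intro hk; exact .wh_false hp
  | wh_true hp h1 h2 ih1 ih2 => intro hk; exact .wh_true hp (ih1 hk) (ih2 hk)

/-- a program over stacks indexed by `ℕ` gives a `TM2ComputableInPolyTime` -/
theorem polyTime_nat (c : Cmd ℕ Fl) (i o : ℕ) (init : Fl) {α β : Type} (ea : α → List Bool)
    (eb : β → List Bool) (f : α → β) (p : Polynomial ℕ)
    (h : ∀ a, ∃ v', RunB c init (update (fun _ => []) i (ea a)) v'
      (update (fun _ => []) o (eb (f a))) (p.eval (ea a).length)) :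
    Nonempty (TM2ComputableInPolyTime ea eb f) := by
  obtain ⟨n, hn⟩ := exists_below c
  have hn1 : Below (max n (max i o) + 1) c :=
    hn.mono (le_trans (le_max_left _ _) (Nat.le_succ _))
  have hi : i < max n (max i o) + 1 :=
    Nat.lt_succ_of_le (le_trans (le_max_left _ _) (le_max_right _ _))
  have ho : o < max n (max i o) + 1 :=
    Nat.lt_succ_of_le (le_trans (le_max_right _ _) (le_max_right _ _))
  refine polyTime_of_run (K := Fin (max n (max i o) + 1)) (ren (fn _) c) (fn _ i) (fn _ o)
    init ea eb f p ?_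
  intro a
  obtain ⟨v', m, hm, hr⟩ := h a
  refine ⟨v', m, hm, ?_⟩
  have := run_fin hr hn1
  rw [update_fn hi, update_fn ho] at this
  exact this

/-- `c` takes the stacks `S` to `S'` in at most `t` steps, whatever the memory is -/
def Does (c : Cmd ℕ Fl) (S S' : ℕ → List Bool) (t : ℕ) : Prop := ∀ v, ∃ v', RunB c v S v' S' t

theorem Does.mono {c : Cmd ℕ Fl} {S S' : ℕ → List Bool} {t t' : ℕ} (h : Does c S S' t)
    (ht : t ≤ t') : Does c S S' t' := by
  intro v
  obtain ⟨v', h'⟩ := h v
  exact ⟨v', h'.mono ht⟩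

theorem Does.seq {c c' : Cmd ℕ Fl} {S S' S'' : ℕ → List Bool} {t t' : ℕ} (h : Does c S S' t)
    (h' : Does c' S' S'' t') : Does (.seq c c') S S'' (t + t') := by
  intro v
  obtain ⟨v', h1⟩ := h v
  obtain ⟨v'', h2⟩ := h' v'
  exact ⟨v'', h1.seq h2⟩

/-- no operation -/
def nop : Cmd ℕ Fl := .load id

theorem nop_does {S : ℕ → List Bool} : Does nop S S 1 := fun v => ⟨v, RunB.load⟩

/-- push a constant -/
def put (k : ℕ) (b : Bool) : Cmd ℕ Fl := .push k (fun _ => b)

theorem put_does {k : ℕ} {b : Bool} {S : ℕ → List Bool} :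
    Does (put k b) S (update S k (b :: S k)) 1 :=
  fun v => ⟨v, 1, le_rfl, .push k _ v S⟩

theorem pp_does {k : ℕ} {v : Fl} {S : ℕ → List Bool} :
    RunB (pp k) v S ⟨v.b, (S k).head?.isSome, (S k).head?.getD v.d⟩ (update S k (S k).tail) 1 :=
  ⟨1, le_rfl, Run.pop k _ v S⟩

theorem mv_does {a k : ℕ} (hak : a ≠ k) {S : ℕ → List Bool} :
    Does (mv a k) S (update (update S a []) k ((S a).reverse ++ S k)) (4 * (S a).length + 2) := by
  intro v
  obtain ⟨v', S', h1, _, h3, h4, h5⟩ := mv_run hak (S a) v S rfl
  refine ⟨v', ?_⟩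
  have : S' = update (update S a []) k ((S a).reverse ++ S k) := by
    funext k'
    by_cases hk : k' = k
    · subst hk
      rw [h4, update_self]
    · rw [update_of_ne hk]
      by_cases ha : k' = a
      · subst ha
        rw [h3, update_self]
      · rw [update_of_ne ha, h5 k' ha hk]
  rw [← this]
  exact h1

theorem clr_does {k : ℕ} {S : ℕ → List Bool} :
    Does (clr k) S (update S k []) (2 * (S k).length + 2) := by
  intro v
  obtain ⟨v', S', h1, _, _, h4, h5⟩ := clr_run (S k) v S rfl
  refine ⟨v', ?_⟩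
  have : S' = update S k [] := by
    funext k'
    by_cases hk : k' = k
    · subst hk
      rw [h4, update_self]
    · rw [update_of_ne hk, h5 k' hk]
  rw [← this]
  exact h1

/-- repeat `B` once for each unit on the stack `k`, which is emptied -/
def rep (k : ℕ) (B : Cmd ℕ Fl) : Cmd ℕ Fl := .seq (pp k) (.wh cF (.seq B (pp k)))

theorem pp_rep_does {k n : ℕ} {T : ℕ → List Bool} (v : Fl) :
    ∃ v' : Fl, v'.b = v.b ∧ v'.c = decide (0 < n) ∧
      RunB (pp k) v (update T k (List.replicate n true)) v'
        (update T k (List.replicate (n - 1) true)) 1 := by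
  have h2 := pp_does (k := k) (v := v) (S := update T k (List.replicate n true))
  have hS : update (update T k (List.replicate n true)) k
      (update T k (List.replicate n true) k).tail =
      update T k (List.replicate (n - 1) true) := by
    rw [update_self, update_idem]
    congr 1
    cases n <;> simp [List.replicate_succ]
  rw [hS] at h2
  refine ⟨_, ?_, ?_, h2⟩
  · rfl
  · simp only [update_self]
    cases n <;> simp [List.replicate_succ]

theorem rep_does {k : ℕ} {B : Cmd ℕ Fl} {t n : ℕ} (T : ℕ → ℕ → List Bool)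
    (hT : ∀ j < n, Does B (update (T j) k (List.replicate (n - 1 - j) true))
      (update (T (j + 1)) k (List.replicate (n - 1 - j) true)) t) :
    Does (rep k B) (update (T 0) k (List.replicate n true)) (update (T n) k [])
      (n * (t + 2) + 2) := by
  have hloop : ∀ (n : ℕ) (T : ℕ → ℕ → List Bool)
      (_ : ∀ j < n, Does B (update (T j) k (List.replicate (n - 1 - j) true))
        (update (T (j + 1)) k (List.replicate (n - 1 - j) true)) t) (v : Fl),
      v.c = decide (0 < n) → ∃ v', RunB (.wh cF (.seq B (pp k))) v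
        (update (T 0) k (List.replicate (n - 1) true)) v' (update (T n) k [])
          (n * (t + 2) + 1) := by
    intro n
    induction n with
    | zero =>
      intro T _ v hv
      exact ⟨v, (RunB.wh_f (by simpa [cF] using hv)).mono (by omega)⟩
    | succ n ih =>
      intro T hT v hv
      obtain ⟨v₁, h1⟩ := hT 0 (Nat.succ_pos n) v
      obtain ⟨v₂, _, hc, h2⟩ := pp_rep_does (k := k) (n := n) (T := T 1) v₁
      obtain ⟨v₃, h3⟩ := ih (fun j => T (j + 1)) (by
        intro j hj
        have := hT (j + 1) (by omega)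
        have e : n + 1 - 1 - (j + 1) = n - 1 - j := by omega
        rw [e] at this
        exact this) v₂ hc
      refine ⟨v₃, (RunB.wh_t (by simpa [cF] using hv) (h1.seq h2) h3).mono ?_⟩
      ring_nf
      omega
  intro v
  obtain ⟨v₂, _, hc, h2⟩ := pp_rep_does (k := k) (n := n) (T := T 0) v
  obtain ⟨v', h3⟩ := hloop n T hT v₂ hc
  exact ⟨v', (h2.seq h3).mono (by omega)⟩

end Pool.Agent.H1.Gen
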