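import Pool.Agent.H1.Gen.Read

/-!
Evaluation of arithmetic expressions in unary.
-/

namespace Pool.Agent.H1.Gen

open Turing Function Pool.Agent.H70.TM Polynomial Pool.Agent.H68.OQP

/-- add the unary counter `a` to the stack `t`, using `tmp` -/
def cpy (a t tmp : ℕ) : Cmd ℕ Fl :=
  .seq (rep a (.seq (put tmp true) (put t true))) (rep tmp (put a true))

theorem cpy_does {a t tmp n : ℕ} (h1 : a ≠ t) (h2 : a ≠ tmp) (h3 : t ≠ tmp)
    {S : ℕ → List Bool} (ha : S a = List.replicate n true) (htmp : S tmp = []) :
    Does (cpy a t tmp) S (update S t (List.replicate n true ++ S t)) (n * 7 + 4) := by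
  have r1 := rep_does (k := a) (B := .seq (put tmp true) (put t true)) (t := 2) (n := n)
    (fun j => update (update S tmp (List.replicate j true)) t (List.replicate j true ++ S t)) (by
      intro j hj
      have p1 := put_does (k := tmp) (b := true) (S := update (update (update S tmp
        (List.replicate j true)) t (List.replicate j true ++ S t)) a
          (List.replicate (n - 1 - j) true))
      have p2 := put_does (k := t) (b := true) (S := update (update (update (update S tmp
        (List.replicate j true)) t (List.replicate j true ++ S t)) a
          (List.replicate (n - 1 - j) true)) tmp (true :: update (update (update S tmp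
        (List.replicate j true)) t (List.replicate j true ++ S t)) a
          (List.replicate (n - 1 - j) true) tmp))
      have := p1.seq p2
      refine cast ?_ this
      congr 1
      funext i
      simp only [Function.update_apply, List.replicate_succ]
      split_ifs <;> simp_all)
  have r2 := rep_does (k := tmp) (B := put a true) (t := 1) (n := n)
    (fun j => update (update S t (List.replicate n true ++ S t)) a (List.replicate j true)) (by
      intro j hj
      have p1 := put_does (k := a) (b := true) (S := update (update (update S t
        (List.replicate n true ++ S t)) a (List.replicate j true)) tmp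
          (List.replicate (n - 1 - j) true))
      refine cast ?_ p1
      congr 1
      funext i
      simp only [Function.update_apply, List.replicate_succ]
      split_ifs <;> simp_all)
  have e1 : update (update (update S tmp (List.replicate 0 true)) t
      (List.replicate 0 true ++ S t)) a (List.replicate n true) = S := by
    funext i
    simp only [Function.update_apply]
    split_ifs <;> simp_all
  have e2 : update (update (update S t (List.replicate n true ++ S t)) a
      (List.replicate 0 true)) tmp (List.replicate n true) =
      update (update (update S tmp (List.replicate n true)) t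
      (List.replicate n true ++ S t)) a [] := by
    funext i
    simp only [Function.update_apply]
    split_ifs <;> simp_all
  have e3 : update (update (update S t (List.replicate n true ++ S t)) a
      (List.replicate n true)) tmp [] = update S t (List.replicate n true ++ S t) := by
    funext i
    simp only [Function.update_apply]
    split_ifs <;> simp_all
  rw [e1] at r1
  rw [e2, e3] at r2
  exact (r1.seq r2).mono (by omega)

/-- push `c` ones -/
def puts (t : ℕ) : ℕ → Cmd ℕ Fl
  | 0 => nop
  | c + 1 => .seq (put t true) (puts t c)

theorem puts_does {t : ℕ} : ∀ (c : ℕ) (S : ℕ → List Bool),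
    Does (puts t c) S (update S t (List.replicate c true ++ S t)) (c + 1) := by
  intro c
  induction c with
  | zero =>
    intro S
    have := nop_does (S := S)
    simpa [puts] using this
  | succ c ih =>
    intro S
    have := (put_does (k := t) (b := true) (S := S)).seq (ih (update S t (true :: S t)))
    rw [update_self, update_idem, rep_snoc] at this
    exact this.mono (by omega)

/-- add the value of an expression to the stack `t`; `ρ` are the stacks of the environment,
stacks from `r` on are free -/
def acc : Ex → (ρ : List ℕ) → (t r : ℕ) → Cmd ℕ Fl
  | .con c, _, t, _ => puts t c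
  | .var i, ρ, t, r =>
    match ρ[i]? with
    | some a => cpy a t r
    | none => nop
  | .inp e, ρ, t, r =>
    .seq (acc e ρ r (r + 1))
      (.seq (rep r (rd (effC none))) (.seq (rd (effC (some t))) (mv 2 0)))
  | .add a b, ρ, t, r => .seq (acc a ρ t r) (acc b ρ t r)
  | .mul a b, ρ, t, r => .seq (acc a ρ r (r + 1)) (rep r (acc b ρ t (r + 1)))

/-- the invariant on the stacks -/
structure Inv (l env ρ : List ℕ) (r : ℕ) (S : ℕ → List Bool) : Prop where
  inp : S 0 = unary l
  aux : S 2 = []
  free : ∀ k, r ≤ k → S k = []
  len : ρ.length = env.length
  env : ∀ (i a : ℕ), ρ[i]? = some a → S a = List.replicate (env.getD i 0) true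
  four : 4 ≤ r
  lt : ∀ a ∈ ρ, 4 ≤ a ∧ a < r

/-- bounds on the input and the environment -/
def Bd (X : ℕ) (l env : List ℕ) : Prop := (unary l).length ≤ X ∧ ∀ x ∈ env, x ≤ X

theorem mem_le_unary {l : List ℕ} {x : ℕ} (h : x ∈ l) : x ≤ (unary l).length := by
  induction l with
  | nil => simp at h
  | cons y l ih =>
    rcases List.mem_cons.mp h with rfl | h
    · simp [unary]
    · have := ih h
      simp only [unary, List.flatMap_cons, List.length_append] at this ⊢
      omega

theorem getD_le {l : List ℕ} {X : ℕ} (h : ∀ x ∈ l, x ≤ X) (i : ℕ) : l.getD i 0 ≤ X := by
  rw [List.getD_eq_getElem?_getD]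
  cases hi : l[i]? with
  | none => simp
  | some x => exact h x (List.mem_of_getElem? hi)

theorem val_bd (e : Ex) : ∃ p : ℕ[X], ∀ X l env, Bd X l env → e.val l env ≤ p.eval X := by
  induction e with
  | con c => exact ⟨C c, fun X l env _ => by simp [Ex.val]⟩
  | var i => exact ⟨.X, fun X l env h => by
      simp only [Ex.val, eval_X]
      exact getD_le h.2 i⟩
  | inp e _ => exact ⟨.X, fun X l env h => by
      simp only [Ex.val, eval_X]
      exact getD_le (fun x hx => (mem_le_unary hx).trans h.1) _⟩
  | add a b iha ihb =>
    obtain ⟨p, hp⟩ := iha
    obtain ⟨q, hq⟩ := ihb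
    exact ⟨p + q, fun X l env h => by
      simp only [Ex.val, eval_add]
      exact Nat.add_le_add (hp X l env h) (hq X l env h)⟩
  | mul a b iha ihb =>
    obtain ⟨p, hp⟩ := iha
    obtain ⟨q, hq⟩ := ihb
    exact ⟨p * q, fun X l env h => by
      simp only [Ex.val, eval_mul]
      exact Nat.mul_le_mul (hp X l env h) (hq X l env h)⟩

theorem Inv.upd {l env ρ : List ℕ} {r t : ℕ} {S : ℕ → List Bool} (h : Inv l env ρ r S)
    (h0 : t ≠ 0) (h2 : t ≠ 2) (hr : t < r) (hρ : t ∉ ρ) (x : List Bool) :
    Inv l env ρ r (update S t x) where
  inp := by rw [update_of_ne h0.symm, h.inp]
  aux := by rw [update_of_ne h2.symm, h.aux]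
  free k hk := by rw [update_of_ne (by omega), h.free k hk]
  len := h.len
  env i a hi := by
    rw [update_of_ne, h.env i a hi]
    rintro rfl
    exact hρ (List.mem_of_getElem? hi)
  four := h.four
  lt := h.lt

theorem Inv.up {l env ρ : List ℕ} {r : ℕ} {S : ℕ → List Bool} (h : Inv l env ρ r S)
    (x : List Bool) : Inv l env ρ (r + 1) (update S r x) where
  inp := by rw [update_of_ne (by have := h.four; omega), h.inp]
  aux := by rw [update_of_ne (by have := h.four; omega), h.aux]
  free k hk := by rw [update_of_ne (by omega), h.free k (by omega)]
  len := h.len
  env i a hi := by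
    rw [update_of_ne, h.env i a hi]
    have := h.lt a (List.mem_of_getElem? hi)
    omega
  four := by have := h.four; omega
  lt a ha := by have := h.lt a ha; omega

theorem Inv.self {l env ρ : List ℕ} {r : ℕ} {S : ℕ → List Bool} (h : Inv l env ρ r S) :
    Inv l env ρ (r + 1) S := by
  have := h.up (S r)
  rwa [update_eq_self] at this

theorem Inv.notMem {l env ρ : List ℕ} {r : ℕ} {S : ℕ → List Bool} (h : Inv l env ρ r S) :
    r ∉ ρ := fun hr => by have := h.lt r hr; omega

theorem acc_does (e : Ex) : ∀ (ρ : List ℕ) (t r : ℕ), ∃ p : ℕ[X], ∀ X l env S, Bd X l env →
    Inv l env ρ r S → t ≠ 0 → t ≠ 2 → t < r → t ∉ ρ →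
    Does (acc e ρ t r) S (update S t (List.replicate (e.val l env) true ++ S t)) (p.eval X) := by
  induction e with
  | con c =>
    intro ρ t r
    refine ⟨C (c + 1), fun X l env S _ _ _ _ _ _ => ?_⟩
    rw [eval_C]
    exact puts_does c S
  | var i =>
    intro ρ t r
    refine ⟨.X * 7 + 4, fun X l env S hX hI h0 h2 hr hρ => ?_⟩
    simp only [acc, Ex.val]
    cases hi : ρ[i]? with
    | none =>
      have hlen : ρ.length ≤ i := List.getElem?_eq_none_iff.mp hi
      have : env.getD i 0 = 0 := by
        rw [List.getD_eq_getElem?_getD, List.getElem?_eq_none (by rw [← hI.len]; exact hlen)]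
        rfl
      rw [this]
      simp only [List.replicate_zero, List.nil_append, update_eq_self]
      exact nop_does.mono (by simp)
    | some a =>
      simp only
      have ha := hI.lt a (List.mem_of_getElem? hi)
      refine (cpy_does (n := env.getD i 0) ?_ (by omega) (by omega) (hI.env i a hi)
        (hI.free r le_rfl)).mono ?_
      · rintro rfl
        exact hρ (List.mem_of_getElem? hi)
      · have := getD_le hX.2 i
        simp only [eval_add, eval_mul, eval_X, eval_ofNat]
        omega
  | inp e ih =>
    intro ρ t r
    obtain ⟨p, hp⟩ := ih ρ r (r + 1)
    obtain ⟨q, hq⟩ := val_bd e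
    refine ⟨p + (q * (4 * .X + 6) + 2) + (4 * .X + 4) + (4 * .X + 2),
      fun X l env S hX hI h0 h2 hr hρ => ?_⟩
    have d1 := hp X l env S hX hI.self (by omega) (by have := hI.four; omega) (by omega)
      hI.notMem
    rw [hI.free r le_rfl, List.append_nil] at d1
    have hr0 : r ≠ 0 := by omega
    have hr2 : r ≠ 2 := by have := hI.four; omega
    have hrt : r ≠ t := by omega
    set m := e.val l env with hm
    have hdrop : ∀ j, (unary (l.drop j)).length ≤ X := by
      intro j
      have h1 : unary (l.take j) ++ unary (l.drop j) = unary l := by
        rw [unary, unary, ← List.flatMap_append, List.take_append_drop]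
        rfl
      have := congrArg List.length h1
      rw [List.length_append] at this
      have := hX.1
      omega
    have htake : ∀ j, (unary (l.take j)).length ≤ X := by
      intro j
      have h1 : unary (l.take j) ++ unary (l.drop j) = unary l := by
        rw [unary, unary, ← List.flatMap_append, List.take_append_drop]
        rfl
      have := congrArg List.length h1
      rw [List.length_append] at this
      have := hX.1
      omega
    have hrev : ∀ j, (unary ((l.drop j).take 1)).reverse ++ (unary (l.take j)).reverse =
        (unary (l.take (j + 1))).reverse := by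
      intro j
      rw [← List.reverse_append, unary, unary, ← List.flatMap_append, ← List.take_add]
      rfl
    have d2 := rep_does (k := r) (B := rd (effC none)) (t := 4 * X + 4) (n := m)
      (fun j => update (update S 0 (unary (l.drop j))) 2 ((unary (l.take j)).reverse)) (by
        intro j hj
        have := (rd_does (o := none) (by intro t ht; cases ht) (l.drop j)
          (update S r (List.replicate (m - 1 - j) true)) ((unary (l.take j)).reverse)).mono
          (show _ ≤ 4 * X + 4 by have := hdrop j; omega)
        rw [hrev] at this
        refine cast ?_ this
        have e1 : ∀ A B : List Bool, update (update (update S r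
            (List.replicate (m - 1 - j) true)) 0 A) 2 B = update (update (update S 0 A) 2 B) r
              (List.replicate (m - 1 - j) true) := by
          intro A B
          funext i
          simp only [Function.update_apply]
          split_ifs <;> simp_all
        simp only [eff, e1, List.tail_drop])
    have e1 : update (update (update S 0 (unary (l.drop 0))) 2
        ((unary (l.take 0)).reverse)) r (List.replicate m true) =
        update S r (List.replicate m true) := by
      have h1 := hI.inp
      have h2 := hI.aux
      funext i
      simp only [Function.update_apply]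
      split_ifs <;> simp_all [unary]
    have e2 : update (update (update S 0 (unary (l.drop m))) 2
        ((unary (l.take m)).reverse)) r [] =
        update (update S 0 (unary (l.drop m))) 2 ((unary (l.take m)).reverse) := by
      have h1 := hI.free r le_rfl
      funext i
      simp only [Function.update_apply]
      split_ifs <;> simp_all
    rw [e1, e2] at d2
    have d3 := (rd_does (o := some t) (by
      intro t' ht'
      obtain rfl : t = t' := by simpa using ht'
      exact ⟨h0, h2⟩) (l.drop m) S ((unary (l.take m)).reverse)).mono
      (show _ ≤ 4 * X + 4 by have := hdrop m; omega)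
    rw [hrev, List.tail_drop] at d3
    have d4 := mv_does (a := 2) (k := 0) (by omega) (S := update (update
      (eff (some t) ((l.drop m).headD 0) S) 0 (unary (l.drop (m + 1)))) 2
        ((unary (l.take (m + 1))).reverse))
    have e3 : update (update (update (update (eff (some t) ((l.drop m).headD 0) S) 0
        (unary (l.drop (m + 1)))) 2 ((unary (l.take (m + 1))).reverse)) 2 []) 0
        ((update (update (eff (some t) ((l.drop m).headD 0) S) 0
        (unary (l.drop (m + 1)))) 2 ((unary (l.take (m + 1))).reverse) 2).reverse ++
        update (update (eff (some t) ((l.drop m).headD 0) S) 0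
        (unary (l.drop (m + 1)))) 2 ((unary (l.take (m + 1))).reverse) 0) =
        update S t (List.replicate (l.getD m 0) true ++ S t) := by
      have h1 : unary (l.take (m + 1)) ++ unary (l.drop (m + 1)) = unary l := by
        rw [unary, unary, ← List.flatMap_append, List.take_append_drop]
        rfl
      have h2 : (l.drop m).headD 0 = l.getD m 0 := by
        rw [List.getD_eq_getElem?_getD, List.headD_eq_head?_getD, List.head?_drop]
      have h3 := hI.inp
      have h4 := hI.aux
      rw [h2]
      simp only [eff]
      funext i
      simp only [Function.update_apply]
      split_ifs <;> simp_all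
    rw [e3] at d4
    have d4' := d4.mono (show _ ≤ 4 * X + 2 by
      rw [update_self, List.length_reverse]
      have := htake (m + 1)
      omega)
    have hm' := hq X l env hX
    refine (d1.seq (d2.seq (d3.seq d4'))).mono ?_
    simp only [eval_add, eval_mul, eval_X, eval_ofNat]
    have : m * (4 * X + 4 + 2) ≤ eval X q * (4 * X + 6) := Nat.mul_le_mul_right _ hm'
    omega
  | add a b iha ihb =>
    intro ρ t r
    obtain ⟨p, hp⟩ := iha ρ t r
    obtain ⟨q, hq⟩ := ihb ρ t r
    refine ⟨p + q, fun X l env S hX hI h0 h2 hr hρ => ?_⟩
    have d1 := hp X l env S hX hI h0 h2 hr hρ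
    have d2 := hq X l env _ hX (hI.upd h0 h2 hr hρ
      (List.replicate (a.val l env) true ++ S t)) h0 h2 hr hρ
    rw [update_self, update_idem, ← List.append_assoc, ← List.replicate_add] at d2
    have := d1.seq d2
    simp only [acc, Ex.val, eval_add]
    rw [Nat.add_comm (a.val l env)]
    exact this
  | mul a b iha ihb =>
    intro ρ t r
    obtain ⟨p, hp⟩ := iha ρ r (r + 1)
    obtain ⟨q, hq⟩ := ihb ρ t (r + 1)
    obtain ⟨s, hs⟩ := val_bd a
    refine ⟨p + (s * (q + 2) + 2), fun X l env S hX hI h0 h2 hr hρ => ?_⟩
    have d1 := hp X l env S hX hI.self (by omega) (by have := hI.four; omega) (by omega)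
      hI.notMem
    rw [hI.free r le_rfl, List.append_nil] at d1
    have hrt : r ≠ t := by omega
    have d2 := rep_does (k := r) (B := acc b ρ t (r + 1)) (t := eval X q) (n := a.val l env)
      (fun j => update S t (List.replicate (j * b.val l env) true ++ S t)) (by
        intro j hj
        have := hq X l env (update (update S t (List.replicate (j * b.val l env) true ++ S t)) r
          (List.replicate (a.val l env - 1 - j) true)) hX
          ((hI.upd h0 h2 hr hρ _).up _) h0 h2 (by omega) hρ
        have e : List.replicate (b.val l env) true ++
            (List.replicate (j * b.val l env) true ++ S t) =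
            List.replicate ((j + 1) * b.val l env) true ++ S t := by
          rw [← List.append_assoc, ← List.replicate_add]
          congr 2
          ring
        refine cast ?_ this
        congr 1
        funext i
        simp only [Function.update_apply]
        split_ifs <;> simp_all)
    have e1 : update (update S t (List.replicate (0 * b.val l env) true ++ S t)) r
        (List.replicate (a.val l env) true) = update S r (List.replicate (a.val l env) true) := by
      funext i
      simp only [Function.update_apply]
      split_ifs <;> simp_all
    have e2 : update (update S t (List.replicate (a.val l env * b.val l env) true ++ S t)) r [] =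
        update S t (List.replicate (a.val l env * b.val l env) true ++ S t) := by
      have h1 := hI.free r le_rfl
      funext i
      simp only [Function.update_apply]
      split_ifs <;> simp_all
    rw [e1, e2] at d2
    refine (d1.seq d2).mono ?_
    simp only [eval_add, eval_mul, eval_ofNat]
    have : a.val l env * (eval X q + 2) ≤ eval X s * (eval X q + 2) :=
      Nat.mul_le_mul_right _ (hs X l env hX)
    omega

end Pool.Agent.H1.Gen
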