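import Pool.Agent.H1.Gen.Expr

/-!
Every generator is computable in polynomial time.
-/

namespace Pool.Agent.H1.Gen

open Turing Function Pool.Agent.H70.TM Polynomial Pool.Agent.H68.OQP

/-- compilation of generators; the output is pushed on stack `3` -/
def cmp : Gn → (ρ : List ℕ) → (r : ℕ) → Cmd ℕ Fl
  | .nil, _, _ => nop
  | .bit b, _, _ => put 3 b
  | .un e, ρ, r => acc e ρ 3 r
  | .seq g h, ρ, r => .seq (cmp g ρ r) (cmp h ρ r)
  | .ifle a b g h, ρ, r =>
    .seq (acc a ρ r (r + 2)) (.seq (acc b ρ (r + 1) (r + 2)) (.seq (rep (r + 1) (pp r))
      (.seq (pp r) (.ite cF (.seq (clr r) (cmp h ρ r)) (cmp g ρ r)))))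
  | .loop e g, ρ, r =>
    .seq (acc e ρ r (r + 1)) (.seq (rep r (.seq (cmp g ((r + 1) :: ρ) (r + 2))
      (put (r + 1) true))) (clr (r + 1)))

theorem Bd.mono {X Y : ℕ} {l env : List ℕ} (h : Bd X l env) (hXY : X ≤ Y) : Bd Y l env :=
  ⟨h.1.trans hXY, fun x hx => (h.2 x hx).trans hXY⟩

theorem Bd.cons {X Y : ℕ} {l env : List ℕ} (h : Bd X l env) {j : ℕ} (hj : j ≤ Y) :
    Bd (X + Y) l (j :: env) :=
  ⟨h.1.trans (Nat.le_add_right _ _), fun x hx => by
    rcases List.mem_cons.mp hx with rfl | hx
    · omega
    · exact (h.2 x hx).trans (Nat.le_add_right _ _)⟩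

theorem length_flatMap_range_le (f : ℕ → List Bool) (B : ℕ) : ∀ n, (∀ i < n, (f i).length ≤ B) →
    ((List.range n).flatMap f).length ≤ n * B := by
  intro n
  induction n with
  | zero => intro _; simp
  | succ n ih =>
    intro h
    rw [List.range_succ, List.flatMap_append, List.length_append]
    have h1 := ih (fun i hi => h i (by omega))
    have h2 := h n (by omega)
    simp only [List.flatMap_cons, List.flatMap_nil, List.append_nil]
    rw [Nat.succ_mul]
    omega

theorem out_bd (g : Gn) : ∃ p : ℕ[X], ∀ X l env, Bd X l env →
    (g.out l env).length ≤ p.eval X := by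
  induction g with
  | nil => exact ⟨0, fun X l env _ => by simp [Gn.out]⟩
  | bit b => exact ⟨1, fun X l env _ => by simp [Gn.out]⟩
  | un e =>
    obtain ⟨p, hp⟩ := val_bd e
    exact ⟨p, fun X l env h => by simpa [Gn.out] using hp X l env h⟩
  | seq g h ihg ihh =>
    obtain ⟨p, hp⟩ := ihg
    obtain ⟨q, hq⟩ := ihh
    refine ⟨p + q, fun X l env h => ?_⟩
    have h1 := hp X l env h
    have h2 := hq X l env h
    simp only [Gn.out, List.length_append, eval_add]
    omega
  | ifle a b g h ihg ihh =>
    obtain ⟨p, hp⟩ := ihg
    obtain ⟨q, hq⟩ := ihh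
    refine ⟨p + q, fun X l env h => ?_⟩
    have h1 := hp X l env h
    have h2 := hq X l env h
    simp only [Gn.out, eval_add]
    split_ifs <;> omega
  | loop e g ih =>
    obtain ⟨p, hp⟩ := ih
    obtain ⟨q, hq⟩ := val_bd e
    refine ⟨q * (p.comp (.X + q)), fun X l env h => ?_⟩
    simp only [Gn.out]
    have h1 := hq X l env h
    refine (length_flatMap_range_le _ (eval (X + eval X q) p) _ (fun i hi =>
      hp _ l (i :: env) (h.cons (by omega)))).trans ?_
    simp only [eval_mul, eval_comp, eval_add, eval_X]
    exact Nat.mul_le_mul_right _ h1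

theorem Inv.push {l env ρ : List ℕ} {r : ℕ} {S : ℕ → List Bool} (h : Inv l env ρ r S) (j : ℕ) :
    Inv l (j :: env) (r :: ρ) (r + 1) (update S r (List.replicate j true)) where
  inp := (h.up _).inp
  aux := (h.up _).aux
  free := (h.up _).free
  len := by simp [h.len]
  env i a hi := by
    cases i with
    | zero =>
      obtain rfl : r = a := by simpa using hi
      simp
    | succ i =>
      simp only [List.getElem?_cons_succ] at hi
      rw [(h.up _).env i a hi]
      simp
  four := (h.up (S r)).four
  lt a ha := by
    rcases List.mem_cons.mp ha with rfl | ha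
    · have := h.four
      omega
    · have := h.lt a ha
      omega

theorem Inv.three {l env ρ : List ℕ} {r : ℕ} {S : ℕ → List Bool} (h : Inv l env ρ r S) :
    3 < r ∧ 3 ∉ ρ := ⟨by have := h.four; omega, fun h3 => by have := h.lt 3 h3; omega⟩

theorem cmp_does (g : Gn) : ∀ (ρ : List ℕ) (r : ℕ), ∃ p : ℕ[X], ∀ X l env S, Bd X l env →
    Inv l env ρ r S →
    Does (cmp g ρ r) S (update S 3 ((g.out l env).reverse ++ S 3)) (p.eval X) := by
  induction g with
  | nil =>
    intro ρ r
    refine ⟨1, fun X l env S _ _ => ?_⟩
    simpa [cmp, Gn.out] using nop_does (S := S)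
  | bit b =>
    intro ρ r
    refine ⟨1, fun X l env S _ _ => ?_⟩
    simpa [cmp, Gn.out] using put_does (k := 3) (b := b) (S := S)
  | un e =>
    intro ρ r
    obtain ⟨p, hp⟩ := acc_does e ρ 3 r
    refine ⟨p, fun X l env S hX hI => ?_⟩
    have := hp X l env S hX hI (by omega) (by omega) hI.three.1 hI.three.2
    simpa [cmp, Gn.out] using this
  | seq g h ihg ihh =>
    intro ρ r
    obtain ⟨p, hp⟩ := ihg ρ r
    obtain ⟨q, hq⟩ := ihh ρ r
    refine ⟨p + q, fun X l env S hX hI => ?_⟩
    have d1 := hp X l env S hX hI
    have d2 := hq X l env _ hX (hI.upd (t := 3) (by omega) (by omega) hI.three.1 hI.three.2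
      ((g.out l env).reverse ++ S 3))
    rw [update_self, update_idem, ← List.append_assoc, ← List.reverse_append] at d2
    have := d1.seq d2
    simpa only [cmp, Gn.out, eval_add] using this
  | ifle a b g h ihg ihh =>
    intro ρ r
    obtain ⟨pa, hpa⟩ := acc_does a ρ r (r + 2)
    obtain ⟨pb, hpb⟩ := acc_does b ρ (r + 1) (r + 2)
    obtain ⟨qa, hqa⟩ := val_bd a
    obtain ⟨qb, hqb⟩ := val_bd b
    obtain ⟨pg, hpg⟩ := ihg ρ r
    obtain ⟨ph, hph⟩ := ihh ρ r
    refine ⟨pa + (pb + ((qb * 3 + 2) + (1 + ((2 * qa + 3) + pg + ph + 1)))),
      fun X l env S hX hI => ?_⟩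
    have h4 := hI.four
    have d1 := hpa X l env S hX hI.self.self (by omega) (by omega) (by omega) hI.notMem
    rw [hI.free r le_rfl, List.append_nil] at d1
    have d2 := hpb X l env _ hX (hI.up (List.replicate (a.val l env) true)).self
      (by omega) (by omega) (by omega) hI.self.notMem
    rw [update_of_ne (by omega : r + 1 ≠ r), hI.free (r + 1) (by omega), List.append_nil] at d2
    have hr1 := hI.free r le_rfl
    have hr2 := hI.free (r + 1) (by omega)
    have d3 := rep_does (k := r + 1) (B := pp r) (t := 1) (n := b.val l env)
      (fun j => update S r (List.replicate (a.val l env - j) true)) (by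
        intro j hj v
        obtain ⟨v', _, _, h3⟩ := pp_rep_does (k := r) (n := a.val l env - j)
          (T := update S (r + 1) (List.replicate (b.val l env - 1 - j) true)) v
        refine ⟨v', cast ?_ h3⟩
        have e : ∀ A B : List Bool, update (update S (r + 1) A) r B =
            update (update S r B) (r + 1) A := fun A B => update_comm (by omega) _ _ _
        rw [e, e]
        rfl)
    have e1 : update (update S r (List.replicate (a.val l env - 0) true)) (r + 1)
        (List.replicate (b.val l env) true) = update (update S r
          (List.replicate (a.val l env) true)) (r + 1) (List.replicate (b.val l env) true) := rfl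
    have e2 : update (update S r (List.replicate (a.val l env - b.val l env) true)) (r + 1) [] =
        update S r (List.replicate (a.val l env - b.val l env) true) := by
      funext i
      simp only [Function.update_apply]
      split_ifs <;> simp_all
    rw [e1, e2] at d3
    have d4 : Does (.seq (pp r) (.ite cF (.seq (clr r) (cmp h ρ r)) (cmp g ρ r)))
        (update S r (List.replicate (a.val l env - b.val l env) true))
        (update S 3 (((Gn.ifle a b g h).out l env).reverse ++ S 3))
        (1 + ((2 * eval X qa + 3) + eval X pg + eval X ph + 1)) := by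
      intro v
      obtain ⟨v₁, _, hc, h3⟩ := pp_rep_does (k := r) (n := a.val l env - b.val l env)
        (T := S) v
      by_cases hab : a.val l env ≤ b.val l env
      · have e3 : a.val l env - b.val l env = 0 := by omega
        have e4 : update S r [] = S := by
          rw [← hr1, update_eq_self]
        rw [e3] at hc h3 ⊢
        simp only [List.replicate_zero, e4, Nat.zero_sub] at h3 ⊢
        obtain ⟨v₂, h5⟩ := hpg X l env S hX hI v₁
        refine ⟨v₂, (h3.seq (RunB.ite_f (by simpa [cF] using hc) ?_)).mono (Nat.add_le_add_left
          (Nat.add_le_add_right (Nat.le_refl _) 1) 1)⟩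
        simp only [Gn.out, if_pos hab]
        exact h5.mono (by omega)
      · have e4 : update S r [] = S := by
          rw [← hr1, update_eq_self]
        obtain ⟨v₂, h5⟩ := clr_does (k := r)
          (S := update S r (List.replicate (a.val l env - b.val l env - 1) true)) v₁
        rw [update_idem, e4] at h5
        obtain ⟨v₃, h6⟩ := hph X l env S hX hI v₂
        have e5 : (Gn.ifle a b g h).out l env = h.out l env := by
          simp only [Gn.out, if_neg hab]
        rw [e5]
        refine ⟨v₃, (h3.seq (RunB.ite_t ?_ ((h5.seq h6).mono ?_)))⟩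
        · have : 0 < a.val l env - b.val l env := by omega
          simpa [cF, this] using hc
        · rw [update_self, List.length_replicate]
          have := hqa X l env hX
          omega
    have := d1.seq (d2.seq (d3.seq d4))
    refine Does.mono (c := cmp (.ifle a b g h) ρ r) this ?_
    simp only [eval_add, eval_mul, eval_ofNat, eval_one]
    have := hqb X l env hX
    omega
  | loop e g ih =>
    intro ρ r
    obtain ⟨p, hp⟩ := acc_does e ρ r (r + 1)
    obtain ⟨q, hq⟩ := val_bd e
    obtain ⟨s, hs⟩ := ih ((r + 1) :: ρ) (r + 2)
    refine ⟨p + ((q * (s.comp (.X + q) + 3) + 2) + (2 * q + 2)), fun X l env S hX hI => ?_⟩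
    have h4 := hI.four
    have d1 := hp X l env S hX hI.self (by omega) (by omega) (by omega) hI.notMem
    rw [hI.free r le_rfl, List.append_nil] at d1
    have hr1 := hI.free r le_rfl
    have hr2 := hI.free (r + 1) (by omega)
    have hm := hq X l env hX
    set m := e.val l env with hmdef
    have d2 := rep_does (k := r) (B := .seq (cmp g ((r + 1) :: ρ) (r + 2)) (put (r + 1) true))
      (t := eval (X + eval X q) s + 1) (n := m)
      (fun j => update (update S 3 (((List.range j).flatMap
        (fun i => g.out l (i :: env))).reverse ++ S 3)) (r + 1) (List.replicate j true)) (by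
        intro j hj
        have hI' := ((hI.upd (t := 3) (by omega) (by omega) hI.three.1 hI.three.2
          (((List.range j).flatMap (fun i => g.out l (i :: env))).reverse ++ S 3)).up
            (List.replicate (m - 1 - j) true)).push j
        have b1 := hs (X + eval X q) l (j :: env) _ (hX.cons (j := j) (by omega)) hI'
        have b2 := put_does (k := r + 1) (b := true) (S := update (update (update (update S 3
          (((List.range j).flatMap (fun i => g.out l (i :: env))).reverse ++ S 3)) r
            (List.replicate (m - 1 - j) true)) (r + 1) (List.replicate j true)) 3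
              ((g.out l (j :: env)).reverse ++ update (update (update S 3
          (((List.range j).flatMap (fun i => g.out l (i :: env))).reverse ++ S 3)) r
            (List.replicate (m - 1 - j) true)) (r + 1) (List.replicate j true) 3))
        have := b1.seq b2
        have ne1 : (3 : ℕ) ≠ r := by omega
        have ne2 : (3 : ℕ) ≠ r + 1 := by omega
        have ne3 : r + 1 ≠ r := by omega
        refine cast ?_ this
        congr 1
        · funext i
          simp only [Function.update_apply]
          split_ifs <;> simp_all
        · funext i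
          simp only [Function.update_apply]
          split_ifs <;> simp_all [List.range_succ, List.replicate_succ])
    have e1 : update (update (update S 3 (((List.range 0).flatMap
        (fun i => g.out l (i :: env))).reverse ++ S 3)) (r + 1) (List.replicate 0 true)) r
          (List.replicate m true) = update S r (List.replicate m true) := by
      funext i
      simp only [Function.update_apply]
      split_ifs <;> simp_all
    rw [e1] at d2
    have d3 := clr_does (k := r + 1) (S := update (update (update S 3 (((List.range m).flatMap
        (fun i => g.out l (i :: env))).reverse ++ S 3)) (r + 1) (List.replicate m true)) r [])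
    have e2 : update (update (update (update S 3 (((List.range m).flatMap
        (fun i => g.out l (i :: env))).reverse ++ S 3)) (r + 1) (List.replicate m true)) r [])
        (r + 1) [] = update S 3 (((Gn.loop e g).out l env).reverse ++ S 3) := by
      have ne1 : (3 : ℕ) ≠ r := by omega
      have ne2 : (3 : ℕ) ≠ r + 1 := by omega
      have ne3 : r + 1 ≠ r := by omega
      simp only [Gn.out]
      funext i
      simp only [Function.update_apply]
      split_ifs <;> simp_all
    rw [e2] at d3
    have d3' := d3.mono (show _ ≤ 2 * m + 2 by
      rw [update_of_ne (by omega), update_self, List.length_replicate])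
    have := d1.seq (d2.seq d3')
    refine Does.mono (c := cmp (.loop e g) ρ r) this ?_
    simp only [eval_add, eval_mul, eval_ofNat, eval_comp, eval_X]
    have : m * (eval (X + eval X q) s + 1 + 2) ≤ eval X q * (eval (X + eval X q) s + 3) :=
      Nat.mul_le_mul hm (by omega)
    omega

/-- the whole program -/
def prg (g : Gn) : Cmd ℕ Fl := .seq (cmp g [] 4) (.seq (clr 0) (mv 3 1))

theorem genPolyTime : GenPolyTime := by
  intro g
  obtain ⟨p, hp⟩ := cmp_does g [] 4
  obtain ⟨q, hq⟩ := out_bd g
  refine polyTime_nat (prg g) 0 1 ⟨false, false, false⟩ unary (fun w => w)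
    (fun l => g.out l []) (p + ((2 * .X + 2) + (4 * q + 2))) ?_
  intro l
  have hX : Bd (unary l).length l [] := ⟨le_rfl, by simp⟩
  have hI : Inv l [] [] 4 (update (fun _ => []) 0 (unary l)) :=
    { inp := update_self _ _ _
      aux := by simp
      free := fun k hk => update_of_ne (by omega) _ _
      len := rfl
      env := by intro i a h; simp at h
      four := le_rfl
      lt := by intro a ha; cases ha }
  have d1 := hp _ l [] _ hX hI
  rw [update_of_ne (by omega), List.append_nil] at d1
  have d2 := clr_does (k := 0) (S := update (update (fun _ => []) 0 (unary l)) 3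
    (g.out l []).reverse)
  have d3 := mv_does (a := 3) (k := 1) (by omega) (S := update (update (update (fun _ => []) 0
    (unary l)) 3 (g.out l []).reverse) 0 [])
  have e : update (update (update (update (update (fun _ => []) 0
    (unary l)) 3 (g.out l []).reverse) 0 []) 3 []) 1 ((update (update (update (fun _ => []) 0
    (unary l)) 3 (g.out l []).reverse) 0 [] 3).reverse ++ update (update (update (fun _ => []) 0
    (unary l)) 3 (g.out l []).reverse) 0 [] 1) = update (fun _ => []) 1 (g.out l []) := by
    funext i
    simp only [Function.update_apply]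
    split_ifs <;> simp_all
  rw [e] at d3
  obtain ⟨v', hv⟩ := (d1.seq (d2.seq d3)) ⟨false, false, false⟩
  refine ⟨v', hv.mono ?_⟩
  have h1 := hq _ l [] hX
  simp only [eval_add, eval_mul, eval_ofNat, eval_X]
  have h2 : (update (update (fun _ => []) 0 (unary l)) 3 (g.out l []).reverse 0 :
      List Bool).length = (unary l).length := by simp
  have h3 : (update (update (update (fun _ => []) 0 (unary l)) 3 (g.out l []).reverse) 0 [] 3 :
      List Bool).length = (g.out l []).length := by simp
  rw [h2, h3]
  omega

end Pool.Agent.H1.Gen
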