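import Pool.Agent.H1.Gen.Base
import Pool.Agent.H68.OQP.GenDefs

/-!
Reading entries of a list written in unary.
-/

namespace Pool.Agent.H1.Gen

open Turing Function Pool.Agent.H70.TM Polynomial Pool.Agent.H68.OQP

/-- last pop succeeded and gave a one -/
def cd (v : Fl) : Bool := v.c && v.d

/-- body of the reading loop -/
def rdB (B : Cmd ℕ Fl) : Cmd ℕ Fl := .seq B (.seq (put 2 true) (pp 0))

/-- move one entry from stack `0` to stack `2`, executing `B` for every unit of it -/
def rd (B : Cmd ℕ Fl) : Cmd ℕ Fl :=
  .seq (pp 0) (.seq (.wh cd (rdB B)) (.ite cF (put 2 false) nop))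

/-- effect of the counting body -/
def eff (o : Option ℕ) (x : ℕ) (S : ℕ → List Bool) : ℕ → List Bool :=
  match o with
  | none => S
  | some t => update S t (List.replicate x true ++ S t)

/-- the counting body -/
def effC (o : Option ℕ) : Cmd ℕ Fl :=
  match o with
  | none => nop
  | some t => put t true

theorem effC_does (o : Option ℕ) (S : ℕ → List Bool) : Does (effC o) S (eff o 1 S) 1 := by
  cases o with
  | none => exact nop_does
  | some t => exact put_does

/-- the target is neither of the input stacks -/
def Tg (o : Option ℕ) : Prop := ∀ t ∈ o, t ≠ 0 ∧ t ≠ 2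

theorem eff_apply {o : Option ℕ} (ho : Tg o) (x : ℕ) (S : ℕ → List Bool) :
    eff o x S 0 = S 0 ∧ eff o x S 2 = S 2 := by
  cases o with
  | none => exact ⟨rfl, rfl⟩
  | some t =>
    obtain ⟨h0, h2⟩ := ho t rfl
    exact ⟨update_of_ne h0.symm _ _, update_of_ne h2.symm _ _⟩

theorem eff_zero (o : Option ℕ) (S : ℕ → List Bool) : eff o 0 S = S := by
  cases o with
  | none => rfl
  | some t => simp [eff]

theorem rep_snoc (x : ℕ) (l : List Bool) :
    List.replicate x true ++ true :: l = List.replicate (x + 1) true ++ l := by
  rw [List.replicate_succ', List.append_assoc]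
  rfl

theorem eff_comm {o : Option ℕ} (ho : Tg o) (x : ℕ) (S : ℕ → List Bool) (A B : List Bool) :
    eff o x (update (update S 0 A) 2 B) = update (update (eff o x S) 0 A) 2 B := by
  cases o with
  | none => rfl
  | some t =>
    obtain ⟨h0, h2⟩ := ho t rfl
    funext i
    by_cases hi2 : i = 2
    · subst hi2; simp [eff, update_of_ne h2.symm]
    · by_cases hi0 : i = 0
      · subst hi0; simp [eff, update_of_ne h0.symm]
      · by_cases hit : i = t
        · subst hit
          simp [eff, update_of_ne hi2, update_of_ne hi0]
        · simp [eff, update_of_ne hi2, update_of_ne hi0, update_of_ne hit]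

theorem eff_add (o : Option ℕ) (x : ℕ) (S : ℕ → List Bool) :
    eff o x (eff o 1 S) = eff o (x + 1) S := by
  cases o with
  | none => rfl
  | some t =>
    simp only [eff, update_self, update_idem]
    congr 1
    rw [List.replicate_one, List.singleton_append, rep_snoc]

theorem upd2_idem (S : ℕ → List Bool) (A B C D : List Bool) :
    update (update (update (update S 0 A) 2 B) 0 C) 2 D = update (update S 0 C) 2 D := by
  funext i
  by_cases hi2 : i = 2
  · subst hi2; simp
  · by_cases hi0 : i = 0
    · subst hi0; simp
    · simp [update_of_ne hi2, update_of_ne hi0]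

/-- the loop reading one entry -/
theorem rd_loop {o : Option ℕ} (ho : Tg o) (R : List Bool) : ∀ (x : ℕ) (v : Fl)
    (S : ℕ → List Bool) (A : List Bool),
    ∃ v₁ v', RunB (pp 0) v (update (update S 0 (List.replicate x true ++ false :: R)) 2 A) v₁
        (update (update S 0 (List.replicate (x - 1) true ++ if x = 0 then R else false :: R)) 2 A) 1
      ∧ v₁.c = true ∧ v₁.d = decide (0 < x) ∧
      RunB (.wh cd (rdB (effC o))) v₁
        (update (update S 0 (List.replicate (x - 1) true ++ if x = 0 then R else false :: R)) 2 A)
        v' (update (update (eff o x S) 0 R) 2 (List.replicate x true ++ A)) (x * 4 + 1) ∧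
      v'.c = true := by
  intro x
  induction x with
  | zero =>
    intro v S A
    have h1 := pp_does (k := 0) (v := v)
      (S := update (update S 0 (List.replicate 0 true ++ false :: R)) 2 A)
    have e : update (update S 0 (List.replicate 0 true ++ false :: R)) 2 A 0 = false :: R := by
      simp
    rw [e] at h1
    refine ⟨⟨v.b, true, false⟩, ⟨v.b, true, false⟩, ?_, rfl, rfl, ?_, rfl⟩
    · have e2 : update (update (update S 0 (List.replicate 0 true ++ false :: R)) 2 A) 0
          (false :: R).tail = update (update S 0 (List.replicate (0 - 1) true ++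
            if 0 = 0 then R else false :: R)) 2 A := by
        funext i
        by_cases hi2 : i = 2
        · subst hi2; simp
        · by_cases hi0 : i = 0
          · subst hi0; simp
          · simp [update_of_ne hi2, update_of_ne hi0]
      rw [e2] at h1
      exact h1
    · rw [eff_zero]
      exact RunB.wh_f rfl
  | succ x ih =>
    intro v S A
    have h1 := pp_does (k := 0) (v := v)
      (S := update (update S 0 (List.replicate (x + 1) true ++ false :: R)) 2 A)
    have e : update (update S 0 (List.replicate (x + 1) true ++ false :: R)) 2 A 0 =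
        true :: (List.replicate x true ++ false :: R) := by
      simp [List.replicate_succ]
    rw [e] at h1
    have e2 : update (update (update S 0 (List.replicate (x + 1) true ++ false :: R)) 2 A) 0
        (true :: (List.replicate x true ++ false :: R)).tail = update (update S 0
          (List.replicate x true ++ false :: R)) 2 A := by
      funext i
      by_cases hi2 : i = 2
      · subst hi2; simp
      · by_cases hi0 : i = 0
        · subst hi0; simp
        · simp [update_of_ne hi2, update_of_ne hi0]
    rw [e2] at h1
    obtain ⟨v₂, h2⟩ := effC_does o (update (update S 0 (List.replicate x true ++ false :: R)) 2 A)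
      ⟨v.b, true, true⟩
    rw [eff_comm ho] at h2
    obtain ⟨v₃, h3⟩ := put_does (k := 2) (b := true)
      (S := update (update (eff o 1 S) 0 (List.replicate x true ++ false :: R)) 2 A) v₂
    have e3 : update (update (update (eff o 1 S) 0 (List.replicate x true ++ false :: R)) 2 A) 2
        (true :: update (update (eff o 1 S) 0 (List.replicate x true ++ false :: R)) 2 A 2) =
        update (update (eff o 1 S) 0 (List.replicate x true ++ false :: R)) 2 (true :: A) := by
      rw [update_self, update_idem]
    rw [e3] at h3
    obtain ⟨v₄, v₅, h4, _, _, h5, h6⟩ := ih v₃ (eff o 1 S) (true :: A)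
    rw [eff_add, rep_snoc] at h5
    refine ⟨⟨v.b, true, true⟩, v₅, ?_, rfl, by simp, ?_, h6⟩
    · simpa using h1
    · have := RunB.wh_t (p := cd) (c := rdB (effC o)) (by rfl) (h2.seq (h3.seq h4)) h5
      simpa using this.mono (by omega)

theorem unary_take_tail (L : List ℕ) : unary (L.take 1) ++ unary L.tail = unary L := by
  cases L with
  | nil => rfl
  | cons x L => simp [unary]

/-- reading one entry -/
theorem rd_does {o : Option ℕ} (ho : Tg o) (L : List ℕ) (S : ℕ → List Bool) (A : List Bool) :
    Does (rd (effC o)) (update (update S 0 (unary L)) 2 A)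
      (update (update (eff o (L.headD 0) S) 0 (unary L.tail)) 2
        ((unary (L.take 1)).reverse ++ A)) ((unary L).length * 4 + 4) := by
  intro v
  cases L with
  | nil =>
    have h1 := pp_does (k := 0) (v := v) (S := update (update S 0 (unary [])) 2 A)
    have e : update (update S 0 (unary [])) 2 A 0 = [] := by
      simp [unary]
    rw [e] at h1
    have e2 : update (update (update S 0 (unary [])) 2 A) 0 ([] : List Bool).tail =
        update (update S 0 (unary [])) 2 A := by
      funext i
      by_cases hi2 : i = 2
      · subst hi2; simp
      · by_cases hi0 : i = 0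
        · subst hi0; simp [unary]
        · simp [update_of_ne hi2, update_of_ne hi0]
    rw [e2] at h1
    refine ⟨⟨v.b, false, v.d⟩, ?_⟩
    have h2 : RunB (.ite cF (put 2 false) nop) (⟨v.b, false, v.d⟩ : Fl)
        (update (update S 0 (unary [])) 2 A) ⟨v.b, false, v.d⟩
        (update (update S 0 (unary [])) 2 A) 2 := RunB.ite_f rfl RunB.load
    have := (h1.seq ((RunB.wh_f (c := rdB (effC o)) (p := cd) rfl).seq h2)).mono
      (show 1 + (1 + 2) ≤ (unary []).length * 4 + 4 by simp)
    simpa [eff_zero, unary, rd] using this
  | cons x L =>
    obtain ⟨v₁, v₂, h1, h2, h3, h4, h5⟩ := rd_loop ho (unary L) x v S A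
    obtain ⟨v₃, h6⟩ := put_does (k := 2) (b := false)
      (S := update (update (eff o x S) 0 (unary L)) 2 (List.replicate x true ++ A)) v₂
    have h7 := RunB.ite_t (p := cF) (c₁ := put 2 false) (c₂ := nop) h5 h6
    refine ⟨v₃, ?_⟩
    have e1 : unary (x :: L) = List.replicate x true ++ false :: unary L := by
      simp [unary]
    have e2 : ((unary ((x :: L).take 1)).reverse ++ A) = false :: (List.replicate x true ++ A) := by
      simp [unary]
    have e3 : update (update (update (eff o x S) 0 (unary L)) 2 (List.replicate x true ++ A)) 2
        (false :: update (update (eff o x S) 0 (unary L)) 2 (List.replicate x true ++ A) 2) =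
        update (update (eff o x S) 0 (unary L)) 2 (false :: (List.replicate x true ++ A)) := by
      rw [update_self, update_idem]
    rw [e3] at h7
    rw [e1, e2]
    refine (h1.seq (h4.seq h7)).mono ?_
    simp
    omega

end Pool.Agent.H1.Gen
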